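import Pool.Agent.H84.S2.Tg

/-!
# Change of the frame (row FRG of the board `s2l_modules`)
-/

set_option autoImplicit false

namespace Pool.Agent.H15.S2

open MvPolynomial SC
open Pool.Agent.H27.LV (ge deg poleOrder canDeg)
open Pool.Agent.H84.SM (cr dt dp)
open Pool.Agent.H3.SF (Itg Bb BB Hm eu grd hes Sfc Crd Cnn Crf Prm nv)
open Pool.Agent.H84.SF Pool.Agent.H3.S2 Pool.Agent.H84.S2

theorem pf_FRG : T_FRG := by
  intro k O _ _ _ _ ε X Z dX dZ h ρ
  have hX : ε X = 0 := (h.max X).2 ⟨1, 0, by ring⟩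
  have hd : dZ (Z + X * ρ) = 1 + X * dZ ρ := by
    rw [map_add, Derivation.leibniz, h.gg, h.gx, smul_eq_mul, smul_eq_mul, mul_zero, add_zero]
  have hε : ε (dZ (Z + X * ρ)) = 1 := by
    rw [hd, map_add, map_one, map_mul, hX, zero_mul, add_zero]
  have hu : IsUnit (dZ (Z + X * ρ)) := h.unit _ (by rw [hε]; exact one_ne_zero)
  obtain ⟨η, hη⟩ := hu.exists_left_inv
  refine ⟨η, dX - (dX (Z + X * ρ)) • (η • dZ), η • dZ, ⟨h.unit, ?_, ?_, ?_, ?_, ?_⟩, ?_, ?_, ?_⟩
  · intro g
    rw [h.max]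
    constructor
    · rintro ⟨a, b, rfl⟩
      exact ⟨a - b * ρ, b, by ring⟩
    · rintro ⟨a, b, rfl⟩
      exact ⟨a + b * ρ, b, by ring⟩
  · simp only [Derivation.sub_apply, Derivation.smul_apply, smul_eq_mul, h.xx, h.gx]
    ring
  · simp only [Derivation.sub_apply, Derivation.smul_apply, smul_eq_mul]
    rw [hη]
    ring
  · simp only [Derivation.smul_apply, smul_eq_mul, h.gx]
    ring
  · simp only [Derivation.smul_apply, smul_eq_mul]
    exact hη
  · intro h0
    have h1 := congrArg ε hη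
    rw [map_mul, h0, zero_mul, map_one] at h1
    exact zero_ne_one h1
  · intro g
    simp only [Derivation.smul_apply, smul_eq_mul]
  · intro g
    simp only [Derivation.sub_apply, Derivation.smul_apply, smul_eq_mul]

end Pool.Agent.H15.S2
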