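import Pool.Agent.H84.S2.Tg
import Pool.Agent.H86.SF.LOC

/-!
# MP_70ba79_ag, THEOREM S, part 2: contact of the solutions at all places (row LC3)
-/

set_option autoImplicit false

namespace Pool.Agent.H15.S2

open MvPolynomial SC
open Pool.Agent.H27.LV (ge deg poleOrder canDeg ge_const)
open Pool.Agent.H84.SM (cr dt dp)
open Pool.Agent.H3.SF (Itg Bb BB Hm eu grd hes Sfc Crd Cnn Crf Prm nv)
open Pool.Agent.H84.SF Pool.Agent.H3.S2 Pool.Agent.H84.S2
open Pool.Agent.H86.SF (aeval_hs eval_hs ge_aeval_sub nv_nonneg nv_zero bX val_bX phi_bX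
  cone_smul sum_nv)

section

variable {k F σ : Type} [Field k] [IsAlgClosed k] [CharZero k] [Field F] [Algebra k F]
  [Fintype σ] [DecidableEq σ]

theorem lc3_place (hCNY : T_CNY) (hTRV : T_TRV) (hLS2 : T_LS2) {X : σ → F} {u : Fin 3 → F}
    {dd : Fin 3 → Derivation k F F} {J : MvPolynomial (Fin 3) k} {j0 m : ℕ} {G : F}
    {GP : MvPolynomial σ k} {sg : ℕ} {S : MvPolynomial (Fin 3) k} (hS : SYd X u dd J j0)
    (hm : 2 ≤ m) (hCr : Crs u dd m G sg S) (hG : GP.IsHomogeneous m) (hval : aeval X GP = G)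
    (hN : Ndl X GP) {α : ℕ} {A : MvPolynomial (Fin 3) k} {b : MvPolynomial (Fin 3) F}
    (hb : Cnn u dd J m G α A b) (hSA : S ∣ A) {T : Finset (σ → k)}
    (hT : ∀ s : σ → k, s ≠ 0 → Cone X s → eval s GP = 0 → Nod X GP s →
      ∃ t ∈ T, ∃ μ : k, μ ≠ 0 ∧ s = μ • t)
    (hT' : ∀ s : σ → k, s ≠ 0 → Cone X s → eval s GP = 0 → SmP X GP s →
      ¬ DvA X u s GP (J * A) → (∀ U : Fin 3 → MvPolynomial σ k, (∀ l, aeval X (U l) = u l) →
      eval (fun l => eval s (U l)) (J * A) = 0) → ∃ t ∈ T, ∃ μ : k, μ ≠ 0 ∧ s = μ • t)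
    {Cf : (σ → k) → ℕ} (hCf : ∀ t, t ≠ 0 → Cone X t → eval t GP = 0 →
      LP2 X u J j0 m G sg S α A b t (Cf t))
    (K : Type) [Field K] [Algebra k K] [Algebra.EssFiniteType k K] (htr : Algebra.trdeg k K = 1)
    (φ : Bb k u →ₐ[k] K) (x : Fin 3 → K) (g : K) (Sp : Finset (DV k K))
    (hC : Crt u J m G sg S φ x g Sp) (hP : Prm φ) (hA : aeval x A ≠ 0) (D : Derivation k K K)
    (hDn : D ≠ 0) (B : MvPolynomial (Fin 3) K) (hB : VM3 u φ b B) (hE : EqC D x A B)
    (v : DV k K) :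
    0 ≤ nv v x α (aeval x A) ∧ 0 ≤ nv v x j0 (aeval x J) ∧ 0 ≤ nv v x sg (aeval x S) ∧
    nv v x m g ≤ 4 * nv v x α (aeval x A) + 7 * nv v x j0 (aeval x J) +
      ((1 + ∑ t ∈ T, Cf t : ℕ) : ℤ) := by
  obtain ⟨-, c, s, hc, hcP, hs0, hcone, hcs⟩ :=
    hCNY k F σ K htr X u dd J j0 hS φ x hC.cx hC.one v
  obtain ⟨U, hU⟩ := Classical.axiomOfChoice hS.ulin
  have hz : ∀ i, ge v 1 (c * φ (bX hS.Xint i) - algebraMap k K (s i)) := fun i =>
    hcs i (bX hS.Xint i) rfl
  have hxU : ∀ l, x l = aeval (fun i => φ (bX hS.Xint i)) (U l) := by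
    intro l
    rw [← hC.cx l (aeval (bX hS.Xint) (U l)) (by rw [val_bX]; exact (hU l).2)]
    exact phi_bX hS.Xint φ _ (fun _ => rfl) _
  have hgG : g = aeval (fun i => φ (bX hS.Xint i)) GP := by
    rw [← hC.gx (aeval (bX hS.Xint) GP) (by rw [val_bX]; exact hval)]
    exact phi_bX hS.Xint φ _ (fun _ => rfl) _
  have hxs : ∀ l, ge v 1 (c * x l - algebraMap k K (eval s (U l))) := by
    intro l
    have h1 := ge_aeval_sub (v := v) (y := fun i => c * φ (bX hS.Xint i)) hz (U l)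
    rw [aeval_hs (hU l).1, pow_one, ← hxU l] at h1
    exact h1
  have hx0 : ∀ l, ge v 0 (c * x l) := by
    intro l
    have h1 := ((hxs l).mono (by norm_num : (0 : ℤ) ≤ 1)).add (ge_const v (eval s (U l)))
    rwa [sub_add_cancel] at h1
  have nA := nv_nonneg hc hcP hx0 hb.hA hA
  have nJ := nv_nonneg hc hcP hx0 hS.Jh hC.Jx
  have nS := nv_nonneg hc hcP hx0 hCr.Sh hC.Sx
  refine ⟨nA, nJ, nS, ?_⟩
  have hsum0 : (0 : ℤ) ≤ ∑ t ∈ T, (Cf t : ℤ) :=
    Finset.sum_nonneg fun t _ => Int.natCast_nonneg _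
  have hCpos : (1 : ℤ) ≤ ((1 + ∑ t ∈ T, Cf t : ℕ) : ℤ) := by
    push_cast
    omega
  -- the points of the finite set
  have key : eval s GP = 0 → ∀ t ∈ T, ∀ μ : k, μ ≠ 0 → s = μ • t →
      nv v x m g ≤ 4 * nv v x α (aeval x A) + 7 * nv v x j0 (aeval x J) +
      ((1 + ∑ t ∈ T, Cf t : ℕ) : ℤ) := by
    intro hGs t htT μ hμ hst
    have ht0 : t ≠ 0 := by
      rintro rfl
      exact hs0 (by rw [hst, smul_zero])
    have hct : Cone X t := cone_smul hμ (by rw [← hst]; exact hcone)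
    have hGt : eval t GP = 0 := by
      rw [hst, eval_hs hG] at hGs
      exact (mul_eq_zero.1 hGs).resolve_left (pow_ne_zero _ hμ)
    have hμ' : algebraMap k K μ⁻¹ ≠ 0 := by
      rw [Ne, map_eq_zero]
      exact inv_ne_zero hμ
    have h1 := hCf t ht0 hct hGt K htr φ x g Sp hC hP hA D hDn B hB hE v
      (algebraMap k K μ⁻¹ * c) (mul_ne_zero hμ' hc)
      (by rw [v.ord_mul' hμ' hc, v.ord_base, zero_add, hcP]) (by
        intro i b hbi
        have h2 := (ge_const v μ⁻¹).mul (hcs i b hbi)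
        rw [zero_add] at h2
        have e : algebraMap k K μ⁻¹ * (c * φ b - algebraMap k K (s i)) =
            algebraMap k K μ⁻¹ * c * φ b - algebraMap k K (t i) := by
          rw [hst, Pi.smul_apply, smul_eq_mul, mul_sub, ← map_mul, inv_mul_cancel_left₀ hμ,
            mul_assoc]
        rwa [e] at h2)
    have h3 : (Cf t : ℤ) ≤ ((1 + ∑ t ∈ T, Cf t : ℕ) : ℤ) := by
      have h4 : Cf t ≤ ∑ t ∈ T, Cf t := Finset.single_le_sum (fun _ _ => Nat.zero_le _) htT
      exact_mod_cast h4.trans (Nat.le_add_left _ _)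
    omega
  by_cases hGs : eval s GP = 0
  · rcases hN s hs0 hcone.pt hGs with hsm | hnod
    · by_cases hdv : DvA X u s GP (J * A)
      · have h1 := hTRV k F σ X u dd J j0 m G GP sg S hS hm hCr hG hval α A b hb s hs0 hcone hdv
          K htr φ x g Sp hC hP hA D hDn B hB hE v c hc hcP hcs
        push_cast at h1
        omega
      · by_cases hJAs : eval (fun l => eval s (U l)) (J * A) = 0
        · obtain ⟨t, htT, μ, hμ, hst⟩ := hT' s hs0 hcone hGs hsm hdv (by
            intro U' hU'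
            have h1 : ∀ l, eval s (U' l) = eval s (U l) := by
              intro l
              have h2 := hcone.pt (U' l - U l) (by rw [map_sub, hU' l, (hU l).2, sub_self])
              rw [map_sub] at h2
              exact sub_eq_zero.1 h2
            rw [show (fun l => eval s (U' l)) = fun l => eval s (U l) from funext h1]
            exact hJAs)
          exact key hGs t htT μ hμ hst
        · have hAs : eval (fun l => eval s (U l)) A ≠ 0 := by
            intro h0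
            apply hJAs
            rw [map_mul, h0, mul_zero]
          have h1 := (hLS2 k F σ X u dd J j0 m G GP sg S hS hm hCr hG hval α A b hb hSA s hs0
            hcone hGs hsm hdv).2 ⟨U, fun l => (hU l).2, hAs⟩
            K htr φ x g Sp hC hP hA D hDn B hB hE v c hc hcP hcs
          push_cast at h1
          omega
    · obtain ⟨t, htT, μ, hμ, hst⟩ := hT s hs0 hcone hGs hnod
      exact key hGs t htT μ hμ hst
  · have h1 := (nv_zero (x := x) hc hcP hz hG hGs).2
    rw [← hgG] at h1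
    omega

/-- sums over all places -/
theorem finsum_le' {ι : Type} {f g : ι → ℤ} (hf : (Function.support f).Finite)
    (hg : (Function.support g).Finite) (C : ℤ) (Sp : Finset ι)
    (h1 : ∀ v, v ∉ Sp → f v ≤ g v) (h2 : ∀ v, f v ≤ g v + C) :
    ∑ᶠ v, f v ≤ ∑ᶠ v, g v + C * Sp.card := by
  classical
  set T : Finset ι := Sp ∪ (hf.toFinset ∪ hg.toFinset) with hT
  have e1 : Function.support f ⊆ (T : Set ι) := by
    intro v hv
    rw [hT, Finset.coe_union, Finset.coe_union, Set.Finite.coe_toFinset, Set.Finite.coe_toFinset]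
    exact Or.inr (Or.inl hv)
  have e2 : Function.support g ⊆ (T : Set ι) := by
    intro v hv
    rw [hT, Finset.coe_union, Finset.coe_union, Set.Finite.coe_toFinset, Set.Finite.coe_toFinset]
    exact Or.inr (Or.inr hv)
  rw [finsum_eq_sum_of_support_subset f e1, finsum_eq_sum_of_support_subset g e2]
  have h3 : ∀ v ∈ T, f v ≤ g v + if v ∈ Sp then C else 0 := by
    intro v _
    by_cases hv : v ∈ Sp
    · rw [if_pos hv]
      exact h2 v
    · rw [if_neg hv, add_zero]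
      exact h1 v hv
  have h4 := Finset.sum_le_sum h3
  rw [Finset.sum_add_distrib, Finset.sum_ite_mem,
    Finset.inter_eq_right.2 (Finset.subset_union_left : Sp ⊆ T), Finset.sum_const,
    nsmul_eq_mul, mul_comm] at h4
  exact h4

end

theorem pf_LC3 (hCNY : T_CNY) (hFND : T_FND) (hFNE : T_FNE) (hTRV : T_TRV) (hLS2 : T_LS2)
    (hLSN : T_LSN) : T_LC3 := by
  intro k F σ _ _ _ _ _ _ _ X u dd J j0 m G GP sg S hS hm hCr hG hval hN α A b hb hSA
  obtain ⟨T1, hT1⟩ := hFND k F σ X u dd J j0 hS m GP hG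
  obtain ⟨T2, hT2⟩ := hFNE k F σ X u dd J j0 hS m GP (by omega) hG (j0 + α) (J * A)
    (hS.Jh.mul hb.hA)
  obtain ⟨T, hsub1, hsub2⟩ : ∃ T : Finset (σ → k), T1 ⊆ T ∧ T2 ⊆ T := by
    classical
    exact ⟨T1 ∪ T2, Finset.subset_union_left, Finset.subset_union_right⟩
  have hex : ∀ t : σ → k, ∃ C : ℕ, t ≠ 0 → Cone X t → eval t GP = 0 →
      LP2 X u J j0 m G sg S α A b t C := by
    intro t
    by_cases h : t ≠ 0 ∧ Cone X t ∧ eval t GP = 0
    · rcases hN t h.1 h.2.1.pt h.2.2 with hsm | hnod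
      · by_cases hdv : DvA X u t GP (J * A)
        · exact ⟨0, fun _ _ _ => hTRV k F σ X u dd J j0 m G GP sg S hS hm hCr hG hval α A b hb t
            h.1 h.2.1 hdv⟩
        · obtain ⟨C, hC⟩ := (hLS2 k F σ X u dd J j0 m G GP sg S hS hm hCr hG hval α A b hb hSA t
            h.1 h.2.1 h.2.2 hsm hdv).1
          exact ⟨C, fun _ _ _ => hC⟩
      · obtain ⟨C, hC⟩ := hLSN k F σ X u dd J j0 m G GP sg S hS hm hCr hG hval α A b hb hSA t
          h.1 h.2.1 h.2.2 hnod
        exact ⟨C, fun _ _ _ => hC⟩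
    · exact ⟨0, fun h1 h2 h3 => absurd ⟨h1, h2, h3⟩ h⟩
  obtain ⟨Cf, hCf⟩ := Classical.axiomOfChoice hex
  refine ⟨1 + ∑ t ∈ T, Cf t, ?_⟩
  intro K _ _ _ htr φ x g Sp hC hP hA D hDn B hB hE
  have hv := lc3_place hCNY hTRV hLS2 hS hm hCr hG hval hN hb hSA (T := T)
    (fun s h1 h2 h3 h4 => by
      obtain ⟨t, ht, h⟩ := hT1 s h1 h2 h3 h4
      exact ⟨t, hsub1 ht, h⟩)
    (fun s h1 h2 h3 h4 h5 h6 => by
      obtain ⟨t, ht, h⟩ := hT2 s h1 h2 h3 h4 h5 h6
      exact ⟨t, hsub2 ht, h⟩) hCf K htr φ x g Sp hC hP hA D hDn B hB hE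
  obtain ⟨fA, sA⟩ := sum_nv htr x α (aeval x A)
  obtain ⟨fJ, sJ⟩ := sum_nv htr x j0 (aeval x J)
  obtain ⟨fS, sS⟩ := sum_nv htr x sg (aeval x S)
  obtain ⟨fg, sg'⟩ := sum_nv htr x m g
  have fA' : (Function.support fun v : DV k K => 4 * nv v x α (aeval x A)).Finite :=
    fA.subset fun v hv h0 => hv (by
      show 4 * nv v x α (aeval x A) = 0
      have h1 : nv v x α (aeval x A) = 0 := h0
      rw [h1, mul_zero])
  have fJ' : (Function.support fun v : DV k K => 7 * nv v x j0 (aeval x J)).Finite :=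
    fJ.subset fun v hv h0 => hv (by
      show 7 * nv v x j0 (aeval x J) = 0
      have h1 : nv v x j0 (aeval x J) = 0 := h0
      rw [h1, mul_zero])
  have fAJ : (Function.support fun v : DV k K => 4 * nv v x α (aeval x A) +
      7 * nv v x j0 (aeval x J)).Finite :=
    (fA'.union fJ').subset (Function.support_add _ _)
  have fAJS : (Function.support fun v : DV k K => 4 * nv v x α (aeval x A) +
      7 * nv v x j0 (aeval x J) + nv v x sg (aeval x S)).Finite :=
    (fAJ.union fS).subset (Function.support_add _ _)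
  have h1 := finsum_le' fg fAJS ((1 + ∑ t ∈ T, Cf t : ℕ) : ℤ) Sp (by
    intro v hvS
    have h2 := hC.off v hvS
    have h3 := hv v
    show nv v x m g ≤ _
    omega) (by
    intro v
    have h3 := hv v
    show nv v x m g ≤ _
    omega)
  have m1 : ∑ᶠ v : DV k K, 4 * nv v x α (aeval x A) = 4 * ∑ᶠ v : DV k K, nv v x α (aeval x A) :=
    (mul_finsum _ _).symm
  have m2 : ∑ᶠ v : DV k K, 7 * nv v x j0 (aeval x J) = 7 * ∑ᶠ v : DV k K, nv v x j0 (aeval x J) :=
    (mul_finsum _ _).symm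
  rw [finsum_add_distrib fAJ fS, finsum_add_distrib fA' fJ', m1, m2, sA, sJ, sS, sg'] at h1
  have e2 : ((sg : ℤ) + 4 * α + 7 * j0) * deg k x =
    4 * (α * deg k x) + 7 * (j0 * deg k x) + sg * deg k x := by ring
  rw [e2]
  exact h1

end Pool.Agent.H15.S2
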