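import Pool.Agent.H84.S2.Tg
import Pool.Agent.H78.LV.Ge

/-!
# Contact with the curve at a node (row LCN of the board `s2l_modules`)
-/

set_option autoImplicit false

namespace Pool.Agent.H15.S2

open MvPolynomial SC
open Pool.Agent.H27.LV (ge deg poleOrder canDeg)
open Pool.Agent.H84.SM (cr dt dp)
open Pool.Agent.H3.SF (Itg Bb BB Hm eu grd hes Sfc Crd Cnn Crf Prm nv)
open Pool.Agent.H84.SF Pool.Agent.H3.S2 Pool.Agent.H84.S2
open Pool.Agent.H27.LV.Ge

section

variable {k O K : Type} [Field k] [CommRing O] [Algebra k O] [Field K] [Algebra k K]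

theorem dt_neg2 (a b c : Fin 3 → O) : dt a (fun i => -b i) c = -dt a b c := by
  simp only [dt, dp, cr, Fin.sum_univ_three]
  ring

theorem dt_swap (a b c : Fin 3 → O) : dt a c b = -dt a b c := by
  simp only [dt, dp, cr, Fin.sum_univ_three]
  ring

theorem eval_negN {N : ℕ} (b : MvPolynomial (Fin 3) O) (hb : b.IsHomogeneous N) (u : Fin 3 → O) :
    eval (fun i => -u i) b = (-1) ^ N * eval u b := by
  rw [eval_eq', eval_eq', Finset.mul_sum]
  refine Finset.sum_congr rfl fun m hm => ?_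
  have h1 : ∑ i, m i = N := by
    have h := hb (mem_support_iff.1 hm)
    rw [← h, Finsupp.weight_apply, Finsupp.sum_fintype _ _ (by simp)]
    simp
  have h2 : ∏ i, (-u i) ^ m i = (-1) ^ N * ∏ i, u i ^ m i := by
    rw [← h1, ← Finset.prod_pow_eq_pow_sum, ← Finset.prod_mul_distrib]
    refine Finset.prod_congr rfl fun i _ => ?_
    rw [← mul_pow, neg_one_mul]
  rw [h2]
  ring

theorem eval_neg3 (b : MvPolynomial (Fin 3) O) (hb : b.IsHomogeneous 3) (u : Fin 3 → O) :
    eval (fun i => -u i) b = -eval u b := by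
  rw [eval_negN b hb]
  ring

/-- the ideal of the elements of order at least `m` -/
def gI (x : O →ₐ[k] K) (v : DV k K) (h0 : ∀ h, ge v 0 (x h)) (m : ℤ) : Ideal O where
  carrier := {c | ge v m (x c)}
  zero_mem' := by
    show ge v m (x 0)
    rw [map_zero]; exact ge_zero v m
  add_mem' := fun {a b} ha hb => by
    show ge v m (x (a + b))
    rw [map_add]; exact ge_add v ha hb
  smul_mem' := fun c a ha => by
    show ge v m (x (c * a))
    rw [map_mul]
    have := ge_mul v (h0 c) ha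
    rwa [zero_add] at this

theorem gI_mul (x : O →ₐ[k] K) (v : DV k K) (h0 : ∀ h, ge v 0 (x h)) (m m' : ℤ) :
    gI x v h0 m * gI x v h0 m' ≤ gI x v h0 (m + m') := by
  rw [Ideal.mul_le]
  intro a ha b hb
  show ge v (m + m') (x (a * b))
  rw [map_mul]
  exact ge_mul v ha hb

theorem cub (x : O →ₐ[k] K) (v : DV k K) (h0 : ∀ h, ge v 0 (x h)) (X Y : O) (n : ℤ)
    (hX : ge v n (x X)) (hY : ge v n (x Y)) {c : O} (hc : c ∈ Ideal.span {X, Y} ^ 3) :
    ge v (n + n + n) (x c) := by
  have h1 : Ideal.span {X, Y} ≤ gI x v h0 n := by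
    rw [Ideal.span_le]
    rintro a (rfl | rfl)
    · exact hX
    · exact hY
  have h2 : Ideal.span {X, Y} ^ 3 ≤ gI x v h0 (n + n + n) := by
    rw [pow_succ, pow_two]
    exact (Ideal.mul_mono ((Ideal.mul_mono h1 h1).trans (gI_mul x v h0 n n)) h1).trans
      (gI_mul x v h0 (n + n) n)
  exact h2 hc

theorem frm_symm [CharZero k] {ε : O →ₐ[k] k} {X Y : O} {dX dY : Derivation k O O}
    (h : Frm ε X Y dX dY) : Frm ε Y X dY dX := by
  refine ⟨h.unit, fun g => ?_, h.gg, h.gx, h.xg, h.xx⟩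
  rw [h.max]
  constructor
  · rintro ⟨a, b, rfl⟩
    exact ⟨b, a, by ring⟩
  · rintro ⟨a, b, rfl⟩
    exact ⟨b, a, by ring⟩

end

theorem pf_LCN (hLCX : T_LCX) : T_LCN := by
  intro k O _ _ _ _ _ _ _ ε X Y dX dY hF G hG p A b E N hb hE hdiv
  obtain ⟨C1, hC1⟩ := hLCX k O ε X Y dX dY hF G hG p A b E N hb hE hdiv
  have hG' : G - Y * X ∈ Ideal.span {Y, X} ^ 3 := by
    rw [mul_comm, Set.pair_comm]
    exact hG
  have hdiv' : ∀ δ : Derivation k O O, (∀ h, δ h = dX G * dY h - dY G * dX h) →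
      G ∣ (A * dt p (fun i => δ (p i)) (fun i => δ (δ (p i))) + eval (fun i => δ (p i)) b) * E := by
    intro δ hδ
    have h1 := hdiv (-δ) (fun h => by
      rw [Derivation.neg_apply, hδ]
      ring)
    have h2 : (fun i => (-δ) (p i)) = fun i => -δ (p i) := rfl
    have h3 : (fun i => (-δ) ((-δ) (p i))) = fun i => δ (δ (p i)) := by
      funext i
      simp only [Derivation.neg_apply, map_neg, neg_neg]
    rw [h2, h3, dt_neg2, eval_neg3 b hb] at h1
    have h4 : (A * -dt p (fun i => δ (p i)) (fun i => δ (δ (p i))) +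
        -eval (fun i => δ (p i)) b) * E = -((A * dt p (fun i => δ (p i)) (fun i => δ (δ (p i))) +
        eval (fun i => δ (p i)) b) * E) := by ring
    rw [h4, dvd_neg] at h1
    exact h1
  obtain ⟨C2, hC2⟩ := hLCX k O ε Y X dY dX (frm_symm hF) G hG' p A b E N hb hE hdiv'
  refine ⟨max C1 C2, fun K _ _ _ htr D hD x v h0 h1 hxG hne hadj heq t ht hxt => ?_⟩
  have hεX : ε X = 0 := (hF.max X).2 ⟨1, 0, by ring⟩
  have hεY : ε Y = 0 := (hF.max Y).2 ⟨0, 1, by ring⟩
  obtain ⟨a, c, hac⟩ := (hF.max t).1 ht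
  have hmin : ∀ n : ℤ, ge v n (x X) → ge v n (x Y) → n ≤ v.ord (x t) := by
    intro n hnX hnY
    have h2 : ge v n (x t) := by
      rw [hac, map_add, map_mul, map_mul]
      have h3 := ge_mul v (h0 a) hnX
      have h4 := ge_mul v (h0 c) hnY
      rw [zero_add] at h3 h4
      exact ge_add v h3 h4
    exact ge_imp v h2 hxt
  have hcase : (x X ≠ 0 ∧ (x Y = 0 ∨ v.ord (x X) < v.ord (x Y))) ∨
      (x Y ≠ 0 ∧ (x X = 0 ∨ v.ord (x Y) < v.ord (x X))) ∨
      (x X ≠ 0 ∧ x Y ≠ 0 ∧ v.ord (x X) = v.ord (x Y)) := by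
    by_cases hX : x X = 0
    · by_cases hY : x Y = 0
      · exfalso
        apply hxt
        rw [hac, map_add, map_mul, map_mul, hX, hY, mul_zero, mul_zero, add_zero]
      · exact Or.inr (Or.inl ⟨hY, Or.inl hX⟩)
    · by_cases hY : x Y = 0
      · exact Or.inl ⟨hX, Or.inl hY⟩
      · rcases lt_trichotomy (v.ord (x X)) (v.ord (x Y)) with h | h | h
        · exact Or.inl ⟨hX, Or.inr h⟩
        · exact Or.inr (Or.inr ⟨hX, hY, h⟩)
        · exact Or.inr (Or.inl ⟨hY, Or.inr h⟩)
  have hmx1 : (C1 : ℤ) ≤ ((max C1 C2 : ℕ) : ℤ) := by exact_mod_cast le_max_left C1 C2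
  have hmx2 : (C2 : ℤ) ≤ ((max C1 C2 : ℕ) : ℤ) := by exact_mod_cast le_max_right C1 C2
  rcases hcase with ⟨hX, hlt⟩ | ⟨hY, hlt⟩ | ⟨hX, hY, hord⟩
  · have h2 := hmin (v.ord (x X)) (ge_of_ord v le_rfl) (by
      rcases hlt with h | h
      · exact Or.inl h
      · exact Or.inr h.le)
    rcases hC1 K htr D hD x v h0 h1 hxG hne hadj heq hX hlt with h | h
    · left; omega
    · right; omega
  · have h2 := hmin (v.ord (x Y)) (by
      rcases hlt with h | h
      · exact Or.inl h
      · exact Or.inr h.le) (ge_of_ord v le_rfl)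
    have hsw : A * dt p (fun i => dY (p i)) (fun i => dX (p i)) =
        -(A * dt p (fun i => dX (p i)) (fun i => dY (p i))) := by
      rw [dt_swap]
      ring
    have hne' : x (A * dt p (fun i => dY (p i)) (fun i => dX (p i))) ≠ 0 := by
      rw [hsw, map_neg]
      exact neg_ne_zero.2 hne
    have hoe : v.ord (x (A * dt p (fun i => dY (p i)) (fun i => dX (p i)))) =
        v.ord (x (A * dt p (fun i => dX (p i)) (fun i => dY (p i)))) := by
      rw [hsw, map_neg, v.ord_neg]
    rcases hC2 K htr D hD x v h0 h1 hxG hne' hadj heq hY hlt with h | h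
    · left
      rw [hoe] at h
      omega
    · right; omega
  · right
    have h2 := hmin (v.ord (x X)) (ge_of_ord v le_rfl) (ge_of_ord v hord.le)
    have h3 := cub x v h0 X Y (v.ord (x X)) (ge_of_ord v le_rfl) (ge_of_ord v hord.le) hG
    have h4 := ge_imp v (h1 X hεX) hX
    have h5 : x G = x X * x Y + x (G - X * Y) := by
      rw [map_sub, map_mul]
      ring
    have h6 := v.ord_add_eq_left (x := x X * x Y) (y := x (G - X * Y)) (mul_ne_zero hX hY)
      (fun hy => by
        have h7 := ge_imp v h3 hy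
        rw [v.ord_mul _ _ hX hY]
        omega)
    rw [h5, h6.2, v.ord_mul _ _ hX hY]
    omega

end Pool.Agent.H15.S2
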